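import Pool.Agent.Helper55.SCH.Goals

/-!
# Project SCH: time spent below a level (`G_TIME`)
-/

set_option autoImplicit false

namespace Pool.Agent.Helper96.SCH

open Pool.Agent.Helper55.SCH Finset

theorem slope {p q : ℕ} {l : ℝ} {a : ℕ → ℝ}
    (h : ∀ x, p ≤ x → x < q → |a (x + 1) - a x| ≤ l) {x : ℕ} (hx : p ≤ x) (z : ℕ)
    (hz : x ≤ z) (hq : z ≤ q) : |a z - a x| ≤ l * ((z : ℝ) - x) := by
  induction z, hz using Nat.le_induction with
  | base => simp
  | succ z hz ih =>
    have h1 := ih (by omega)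
    have h2 := h z (by omega) (by omega)
    have h3 : a (z + 1) - a x = (a (z + 1) - a z) + (a z - a x) := by ring
    rw [h3]
    refine (abs_add_le _ _).trans ?_
    push_cast
    linarith

theorem goalTIME : G_TIME := by
  intro p q l lam a y hpq hl hlam hs hy
  by_cases hall : ∀ x ∈ Icc p q, a x ≤ -lam
  · exact Or.inr fun x hx => (hy x hx).2.2 (hall x hx)
  · left
    push Not at hall
    obtain ⟨z, hz, hz'⟩ := hall
    set S : Finset ℕ := (Icc p q).filter (fun x => -lam < a x) with hS
    have hne : S.Nonempty := ⟨z, by rw [hS, mem_filter]; exact ⟨hz, hz'⟩⟩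
    have h0 := S.min'_mem hne
    have h1 := S.max'_mem hne
    set x0 := S.min' hne with hx0
    set x1 := S.max' hne with hx1
    have h01 : x0 ≤ x1 := S.min'_le _ h1
    have m0 := h0
    have m1 := h1
    rw [hS, mem_filter, mem_Icc] at m0 m1
    -- before `x0` and after `x1`
    have b0 : ∀ x ∈ Ico p x0, y x = 1 := by
      intro x hx
      rw [mem_Ico] at hx
      have hx' : x ∈ Icc p q := by rw [mem_Icc]; omega
      refine (hy x hx').2.2 ?_
      by_contra hc
      have : x ∈ S := by
        rw [hS, mem_filter]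
        exact ⟨hx', not_le.1 hc⟩
      have := S.min'_le _ this
      omega
    have b1 : ∀ x ∈ Ioc x1 q, y x = 1 := by
      intro x hx
      rw [mem_Ioc] at hx
      have hx' : x ∈ Icc p q := by rw [mem_Icc]; omega
      refine (hy x hx').2.2 ?_
      by_contra hc
      have : x ∈ S := by
        rw [hS, mem_filter]
        exact ⟨hx', not_le.1 hc⟩
      have := S.le_max' _ this
      omega
    have hsum : ((x0 : ℝ) - p) + ((q : ℝ) - x1) ≤ ∑ x ∈ Icc p q, y x := by
      have hd : Disjoint (Ico p x0) (Ioc x1 q) := by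
        rw [disjoint_left]
        intro x hx hx'
        rw [mem_Ico] at hx
        rw [mem_Ioc] at hx'
        omega
      have hsub : Ico p x0 ∪ Ioc x1 q ⊆ Icc p q := by
        intro x hx
        rw [mem_union, mem_Ico, mem_Ioc] at hx
        rw [mem_Icc]
        omega
      calc ((x0 : ℝ) - p) + ((q : ℝ) - x1) = ∑ x ∈ Ico p x0 ∪ Ioc x1 q, y x := by
            rw [sum_union hd, sum_congr rfl b0, sum_congr rfl b1]
            simp only [sum_const, Nat.card_Ico, Nat.card_Ioc, nsmul_eq_mul, mul_one]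
            rw [Nat.cast_sub m0.1.1, Nat.cast_sub m1.1.2]
        _ ≤ ∑ x ∈ Icc p q, y x :=
            sum_le_sum_of_subset_of_nonneg hsub fun x hx _ => (hy x hx).1
    have s0 := slope hs (le_refl p) x0 m0.1.1 m0.1.2
    have s1 := slope hs m1.1.1 q m1.1.2 le_rfl
    rw [abs_le] at s0 s1
    have t0 : max (-a p) 0 - lam ≤ l * ((x0 : ℝ) - p) := by
      have hp0 : 0 ≤ l * ((x0 : ℝ) - p) :=
        mul_nonneg hl (sub_nonneg.2 (by exact_mod_cast m0.1.1))
      rcases max_cases (-a p) 0 with ⟨h, -⟩ | ⟨h, -⟩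
      · rw [h]
        have := m0.2
        linarith [s0.2]
      · rw [h]
        linarith
    have t1 : max (-a q) 0 - lam ≤ l * ((q : ℝ) - x1) := by
      have hp0 : 0 ≤ l * ((q : ℝ) - x1) :=
        mul_nonneg hl (sub_nonneg.2 (by exact_mod_cast m1.1.2))
      rcases max_cases (-a q) 0 with ⟨h, -⟩ | ⟨h, -⟩
      · rw [h]
        have := m1.2
        linarith [s1.1]
      · rw [h]
        linarith
    have t2 := mul_le_mul_of_nonneg_left hsum hl
    linarith

end Pool.Agent.Helper96.SCH
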